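import Mathlib
import Pool.Agent.H206R2.RhoChain
import Pool.Agent.H399R2.BGap
import Pool.Agent.H410R2.MFinal

/-! Across every late extremal window of suitable lengths the gap `π - ρ` strictly increases; so
`π(y) - ρ(y)` has no finite limit. -/

set_option autoImplicit false

namespace Pool.Agent.Results.MP_5046ca_nt.NoFiniteLimit

open Filter Pool.Agent.H206R2

/-- The gap `π(y) - ρ(y)`, where `ρ(y) = limsup_x (π(x+y) - π(x))`. -/
noncomputable def gap (y : ℕ) : ℤ := (Nat.primeCounting y : ℤ) - (rho y : ℤ)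

theorem exists_two : ∃ a, 2 ≤ rho a := by
  obtain ⟨m, hm, hinf⟩ := Pool.Agent.H399R2.gap_of_maynardTao Pool.Agent.H410R2.maynardTao
  refine ⟨m + 1, ?_⟩
  obtain ⟨X, hX⟩ := eventually_atTop.1 (rho_upper (m + 1))
  obtain ⟨p, hp, hpX⟩ := hinf.exists_gt (X + 1)
  obtain ⟨hp1, hp2⟩ := hp
  have h1 := hX (p - 1) (by omega)
  have e1 : p - 1 + (m + 1) = p + m := by omega
  rw [e1] at h1
  have h2 : Nat.primeCounting p = Nat.primeCounting (p - 1) + 1 := by
    obtain ⟨k, rfl⟩ : ∃ k, p = k + 1 := ⟨p - 1, by omega⟩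
    simp only [Nat.primeCounting, Nat.primeCounting', Nat.add_sub_cancel]
    rw [Nat.count_succ, if_pos hp1]
  have h3 : Nat.primeCounting (p + m) = Nat.primeCounting (p + m - 1) + 1 := by
    obtain ⟨k, hk⟩ : ∃ k, p + m = k + 1 := ⟨p + m - 1, by omega⟩
    rw [hk] at hp2 ⊢
    simp only [Nat.primeCounting, Nat.primeCounting', Nat.add_sub_cancel]
    rw [Nat.count_succ, if_pos hp2]
  have h4 := pc_mono (show p ≤ p + m - 1 by omega)
  omega

theorem strong (B : ℕ) : ∃ b, B ≤ b ∧ ∀ᶠ t in atTop,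
    Nat.primeCounting (t + b) = Nat.primeCounting t + rho b → gap t + 1 ≤ gap (t + b) := by
  obtain ⟨a, ha⟩ := exists_two
  by_contra hcon
  have H : ∀ b, max a B ≤ b → ∃ᶠ t in atTop, Ext b t ∧ rho t + rho b ≤ rho (t + b) := by
    intro b hb hn
    apply hcon
    refine ⟨b, le_trans (le_max_right _ _) hb, ?_⟩
    filter_upwards [hn] with t ht hE
    have h1 : ¬ (rho t + rho b ≤ rho (t + b)) := fun h => ht ⟨hE, h⟩
    unfold gap
    omega
  have h1 := rho_le_one _ H
  have h2 := rho_mono (le_max_left a B)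
  omega

/-- For arbitrarily large lengths `b`, across every sufficiently late window `(t, t+b]` containing
the extremal number `ρ(b)` of primes the gap `π - ρ` increases; in particular `π(y) - ρ(y)` has no
finite limit as `y → ∞`. -/
theorem result :
    (∀ B : ℕ, ∃ b : ℕ, B ≤ b ∧ ∀ᶠ t in atTop,
      Nat.primeCounting (t + b) = Nat.primeCounting t + rho b → gap t + 1 ≤ gap (t + b)) ∧
    ¬ ∃ L : ℝ, Tendsto (fun y : ℕ => (gap y : ℝ)) atTop (nhds L) := by
  refine ⟨strong, ?_⟩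
  rintro ⟨L, hL⟩
  obtain ⟨b, -, hb⟩ := strong 0
  have hL2 : Tendsto (fun y : ℕ => (gap (y + b) : ℝ)) atTop (nhds L) :=
    hL.comp (tendsto_add_atTop_nat b)
  have hd : Tendsto (fun y : ℕ => (gap (y + b) : ℝ) - (gap y : ℝ)) atTop (nhds (L - L)) :=
    hL2.sub hL
  rw [sub_self] at hd
  have h1 : ∀ᶠ y in atTop, (gap (y + b) : ℝ) - (gap y : ℝ) < 1 :=
    hd.eventually (gt_mem_nhds one_pos)
  obtain ⟨t, ht, h2, h3⟩ := ((rho_attained b).and_eventually (hb.and h1)).exists
  have h4 := h2 ht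
  have h5 : ((gap t : ℤ) : ℝ) + 1 ≤ ((gap (t + b) : ℤ) : ℝ) := by exact_mod_cast h4
  linarith

end Pool.Agent.Results.MP_5046ca_nt.NoFiniteLimit
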