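import Mathlib
import Pool.Agent.H381R2.HR.Main
import Pool.Prelude.Def_F_c8bfdf43

/-!
# The Hardy–Littlewood conjecture and primes in intervals

Q1 (the Hardy–Littlewood prime tuple conjecture) implies that for every `α < 1/2` and all large `y`
there are many `x` with `π(x + y) ≥ π(x) + π(y) + α y log log log y / (log y)^2`.  Hence Q1 is
incompatible with the opposite inequality (Richards 1974: with `π(x + y) ≤ π(x) + π(y)`).
-/

set_option autoImplicit false

open Finset Filter N9a2a6718

namespace Pool.Agent.Results.MP_5046ca_nt.StrongerIncompatibility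

theorem result :
    ((∀ {k : ℕ} (m : Fin k.succ → ℕ), FirstHardyLittlewoodConjectureFor m) →
      ∀ α : ℝ, α < 1 / 2 → ∃ y0 : ℕ, ∀ y : ℕ, y0 ≤ y →
        ∃ δ : ℝ, 0 < δ ∧ ∃ X0 : ℕ, ∀ X : ℕ, X0 ≤ X →
          δ * (X / (Real.log X) ^ y) ≤
            (((Icc 1 X).filter (fun x => (Nat.primeCounting x : ℝ) + Nat.primeCounting y +
              α * (y * Real.log (Real.log (Real.log y)) / (Real.log y) ^ 2) ≤
                Nat.primeCounting (x + y))).card : ℝ)) ∧
    (∀ α : ℝ, α < 1 / 2 →
      (∃ᶠ y : ℕ in atTop, ∀ᶠ x : ℕ in atTop, (Nat.primeCounting (x + y) : ℝ) ≤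
        Nat.primeCounting x + Nat.primeCounting y +
          α * (y * Real.log (Real.log (Real.log y)) / (Real.log y) ^ 2)) →
      ¬ ∀ {k : ℕ} (m : Fin k.succ → ℕ), FirstHardyLittlewoodConjectureFor m) := by
  have h1 : (∀ {k : ℕ} (m : Fin k.succ → ℕ), FirstHardyLittlewoodConjectureFor m) →
      ∀ α : ℝ, α < 1 / 2 → ∃ y0 : ℕ, ∀ y : ℕ, y0 ≤ y →
        ∃ δ : ℝ, 0 < δ ∧ ∃ X0 : ℕ, ∀ X : ℕ, X0 ≤ X →
          δ * (X / (Real.log X) ^ y) ≤
            (((Icc 1 X).filter (fun x => (Nat.primeCounting x : ℝ) + Nat.primeCounting y +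
              α * (y * Real.log (Real.log (Real.log y)) / (Real.log y) ^ 2) ≤
                Nat.primeCounting (x + y))).card : ℝ) := by
    intro HL α hα
    exact Pool.Agent.H381R2.HR.I3 α (Pool.Agent.H381R2.HR.final hα)
      (fun m hm C hC => Pool.Agent.H381R2.HR.I2 m hm C hC) HL
  refine ⟨h1, ?_⟩
  intro α hα hfreq HL
  set α' := (α + 1 / 2) / 2 with hα'
  have hαα' : α < α' := by rw [hα']; linarith
  have hα'2 : α' < 1 / 2 := by rw [hα']; linarith
  obtain ⟨y0, hy0⟩ := h1 HL α' hα'2
  have hy : Tendsto (fun y : ℕ => Real.log (Real.log (Real.log (y : ℝ)))) atTop atTop :=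
    ((Real.tendsto_log_atTop.comp Real.tendsto_log_atTop).comp Real.tendsto_log_atTop).comp
      tendsto_natCast_atTop_atTop
  obtain ⟨y, hyx, hyy0, hy1, hy3⟩ := (hfreq.and_eventually ((eventually_ge_atTop y0).and
    ((hy.eventually_ge_atTop 1).and (eventually_ge_atTop 3)))).exists
  obtain ⟨δ, hδ, X0, hX0⟩ := hy0 y hyy0
  obtain ⟨x1, hx1⟩ := eventually_atTop.mp hyx
  have hy3r : (3 : ℝ) ≤ y := by exact_mod_cast hy3
  have hlogy : 0 < Real.log y := Real.log_pos (by linarith)
  set g : ℝ := y * Real.log (Real.log (Real.log y)) / (Real.log y) ^ 2 with hg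
  have hg0 : 0 < g := by
    rw [hg]
    apply div_pos (mul_pos (by linarith) (by linarith)) (by positivity)
  -- the counting set is bounded
  have hbd : ∀ X : ℕ, (((Icc 1 X).filter (fun x => (Nat.primeCounting x : ℝ) +
      Nat.primeCounting y + α' * g ≤ Nat.primeCounting (x + y))).card : ℝ) ≤ x1 := by
    intro X
    have hsub : (Icc 1 X).filter (fun x => (Nat.primeCounting x : ℝ) +
      Nat.primeCounting y + α' * g ≤ Nat.primeCounting (x + y)) ⊆ range x1 := by
      intro x hx
      rw [mem_range]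
      by_contra hcon
      push Not at hcon
      have h2 := hx1 x hcon
      have h3 := (mem_filter.mp hx).2
      have h4 : α * g < α' * g := mul_lt_mul_of_pos_right hαα' hg0
      linarith
    have := card_le_card hsub
    rw [card_range] at this
    exact_mod_cast this
  -- but the lower bound tends to infinity
  have hlo : (fun x : ℝ => Real.log x ^ y) =o[atTop] fun x : ℝ => x :=
    Real.isLittleO_pow_log_id_atTop
  have hb := hlo.bound (show (0 : ℝ) < δ / (x1 + 1) by positivity)
  have hb' := tendsto_natCast_atTop_atTop.eventually hb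
  obtain ⟨X, hX, hXX0, hX3⟩ := (hb'.and ((eventually_ge_atTop X0).and
    (eventually_ge_atTop 3))).exists
  have hX3r : (3 : ℝ) ≤ X := by exact_mod_cast hX3
  have hlogX : 0 < Real.log X := Real.log_pos (by linarith)
  rw [Real.norm_of_nonneg (by positivity), Real.norm_of_nonneg (by positivity)] at hX
  have h5 := (hX0 X hXX0).trans (hbd X)
  have h6 : δ * ((X : ℝ) / (Real.log X) ^ y) ≥ x1 + 1 := by
    have h7 : 0 < (Real.log X) ^ y := by positivity
    have h8 : (x1 + 1) * (Real.log X) ^ y ≤ δ * X := by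
      have h9 : (x1 + 1 : ℝ) * (Real.log X) ^ y ≤ (x1 + 1) * (δ / (x1 + 1) * X) :=
        mul_le_mul_of_nonneg_left hX (by positivity)
      have h10 : (x1 + 1 : ℝ) * (δ / (x1 + 1) * X) = δ * X := by field_simp
      linarith
    rw [ge_iff_le, mul_div_assoc', le_div_iff₀ h7]
    exact h8
  linarith

end Pool.Agent.Results.MP_5046ca_nt.StrongerIncompatibility
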